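import Pool.Agent.H43.CE.Defs

/-!
# CE, job Z-Comb : blocks, `Pres`, `AD`

`bk I j = #{c ∈ I : c ≤ j}`.
* `bk_mono` : subset of filters.
* `le_of_bk_eq` : if `j < c`, `c ∈ I`, then `{c' ∈ I : c' ≤ j} ⊂ {c' ∈ I : c' ≤ c}` strictly (it misses `c`), so `bk I j < bk I c`.
* `bk_eq_of` : the two filters are equal.  `bk_inj` : `le_of_bk_eq` twice.
* `exists_of_bk_ne` : `c ≤ j`, `bk I j ≠ bk I c`: some `c' ∈ I` with `c' ≤ j`, not `c' ≤ c`.
* `pres_le` : `u` maps the finite set `{j < c}` injectively into itself, so bijectively; so `c ≤ j → c ≤ u j` (otherwise `u j < c` is `u j'` with `j' < c`).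
  `pres_inv_lt`, `pres_le_inv` : the same for `u⁻¹`.
* `pres_of_ble` : `Pres I u ↔ ∀ c ∈ I, rk u c c = 0` (`rk u i k = #{j < k : i ≤ u j}`), and `rk u1 c c ≤ rk u c c`.
* `bk_apply` : `c ≤ u c` (`pres_le`); for `c' ∈ I`: `c' ≤ u c ↔ c' ≤ c`: if `c' ≤ c` then `c' ≤ u c`; if `c < c'` then `u c < c'` (`Pres` at `c'`).
* `star` : put `m = u⁻¹ i`; `c ≤ m` (`pres_le_inv`), `m ≠ c` (`i ≠ u c`), so `c < m`, `u m = i < u c`; `AD`: `w⁻¹ c < w⁻¹ m = (u * w)⁻¹ i`.
* `isId_image` : `j = u c`, `prc (bk I) (u*w) i j`: `bk I i = bk I (u c) = bk I c` so `c ≤ i` (`le_of_bk_eq`), `i < u c`, and `(u*w)⁻¹ i < (u*w)⁻¹ (u c) = w⁻¹ c`: contradiction to `star`.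
-/

open MvPolynomial

noncomputable section

namespace CE

open CMT

variable {n : ℕ} {I : Finset (Fin n)} {u w : Equiv.Perm (Fin n)}

theorem comb_ii (u : Equiv.Perm (Fin n)) (j : Fin n) : u⁻¹ (u j) = j := u.symm_apply_apply j

theorem comb_ai (u : Equiv.Perm (Fin n)) (j : Fin n) : u (u⁻¹ j) = j := u.apply_symm_apply j

theorem bk_mono (I : Finset (Fin n)) : Monotone (bk I) := by
  intro a b hab
  refine Finset.card_le_card (fun c hc => ?_)
  rw [Finset.mem_filter] at hc ⊢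
  exact ⟨hc.1, hc.2.trans hab⟩

theorem le_of_bk_eq {c j : Fin n} (hc : c ∈ I) (h : bk I j = bk I c) : c ≤ j := by
  by_contra hj
  have hj' := not_le.1 hj
  have h1 : (I.filter fun c' => c' ≤ j) ⊂ (I.filter fun c' => c' ≤ c) := by
    rw [Finset.ssubset_iff_of_subset]
    · refine ⟨c, Finset.mem_filter.2 ⟨hc, le_rfl⟩, fun h2 => ?_⟩
      exact hj (Finset.mem_filter.1 h2).2
    · intro c' hc'
      rw [Finset.mem_filter] at hc' ⊢
      exact ⟨hc'.1, hc'.2.trans hj'.le⟩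
  have h2 := Finset.card_lt_card h1
  unfold bk at h
  omega

theorem bk_inj {c c' : Fin n} (hc : c ∈ I) (hc' : c' ∈ I) (h : bk I c = bk I c') : c = c' :=
  le_antisymm (le_of_bk_eq hc h.symm) (le_of_bk_eq hc' h)

theorem bk_eq_of {c j : Fin n} (hcj : c ≤ j) (h : ∀ c' ∈ I, c < c' → j < c') :
    bk I j = bk I c := by
  unfold bk
  congr 1
  ext c'
  rw [Finset.mem_filter, Finset.mem_filter]
  constructor
  · rintro ⟨h1, h2⟩
    refine ⟨h1, ?_⟩
    by_contra h3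
    exact absurd (h c' h1 (not_le.1 h3)) (not_lt.2 h2)
  · rintro ⟨h1, h2⟩
    exact ⟨h1, h2.trans hcj⟩

theorem exists_of_bk_ne {c j : Fin n} (hcj : c ≤ j) (h : bk I j ≠ bk I c) :
    ∃ c' ∈ I, c < c' ∧ c' ≤ j := by
  by_contra h1
  push Not at h1
  exact h (bk_eq_of hcj h1)

theorem comb_image (hp : Pres I u) {c : Fin n} (hc : c ∈ I) :
    (Finset.Iio c).image u = Finset.Iio c := by
  apply Finset.eq_of_subset_of_card_le
  · intro j hj
    obtain ⟨k, hk, rfl⟩ := Finset.mem_image.1 hj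
    rw [Finset.mem_Iio] at hk ⊢
    exact hp c hc k hk
  · rw [Finset.card_image_of_injective _ u.injective]

theorem pres_le (hp : Pres I u) {c j : Fin n} (hc : c ∈ I) (hj : c ≤ j) : c ≤ u j := by
  by_contra h
  have h1 : u j ∈ (Finset.Iio c).image u := by
    rw [comb_image hp hc, Finset.mem_Iio]
    exact not_le.1 h
  obtain ⟨k, hk, he⟩ := Finset.mem_image.1 h1
  rw [Finset.mem_Iio] at hk
  have := u.injective he
  rw [this] at hk
  exact absurd hk (not_lt.2 hj)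

theorem pres_inv_lt (hp : Pres I u) {c j : Fin n} (hc : c ∈ I) (hj : j < c) : u⁻¹ j < c := by
  have h1 : j ∈ (Finset.Iio c).image u := by
    rw [comb_image hp hc, Finset.mem_Iio]
    exact hj
  obtain ⟨k, hk, rfl⟩ := Finset.mem_image.1 h1
  rw [Finset.mem_Iio] at hk
  rw [comb_ii]
  exact hk

theorem pres_le_inv (hp : Pres I u) {c j : Fin n} (hc : c ∈ I) (hj : c ≤ j) : c ≤ u⁻¹ j := by
  by_contra h
  have h1 := hp c hc _ (not_le.1 h)
  rw [comb_ai] at h1
  exact absurd h1 (not_lt.2 hj)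

theorem pres_of_ble {u1 : Equiv.Perm (Fin n)} (h : ble u1 u) (hp : Pres I u) : Pres I u1 := by
  intro c hc j hj
  have h1 := h c.val c.val
  have h2 : rk u c.val c.val = 0 := by
    unfold rk
    rw [Finset.card_eq_zero, Finset.filter_eq_empty_iff]
    rintro k - ⟨h3, h4⟩
    have h5 := hp c hc k (Fin.lt_def.2 h3)
    rw [Fin.lt_def] at h5
    omega
  have h3 : rk u1 c.val c.val = 0 := by omega
  unfold rk at h3
  rw [Finset.card_eq_zero, Finset.filter_eq_empty_iff] at h3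
  have h4 := h3 (Finset.mem_univ j)
  rw [Fin.lt_def] at hj ⊢
  by_contra h5
  exact h4 ⟨hj, not_lt.1 h5⟩

theorem bk_apply (hp : Pres I u) {c : Fin n} (hc : c ∈ I) : bk I (u c) = bk I c :=
  bk_eq_of (pres_le hp hc le_rfl) (fun c' hc' h => hp c' hc' c h)

theorem star (had : AD u w) (hp : Pres I u) {c i : Fin n} (hc : c ∈ I) (h1 : c ≤ i)
    (h2 : i < u c) : w⁻¹ c < (u * w)⁻¹ i := by
  have h3 : c ≤ u⁻¹ i := pres_le_inv hp hc h1
  have h4 : c ≠ u⁻¹ i := by
    intro h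
    rw [h, comb_ai] at h2
    exact lt_irrefl _ h2
  have h5 := had c (u⁻¹ i) (lt_of_le_of_ne h3 h4) (by rwa [comb_ai])
  rw [mul_inv_rev, Equiv.Perm.mul_apply]
  exact h5

theorem isId_image (had : AD u w) (hp : Pres I u) : IsId (bk I) (u * w) (I.image u) := by
  intro i j hj hij
  obtain ⟨c, hc, rfl⟩ := Finset.mem_image.1 hj
  obtain ⟨h1, h2, h3⟩ := hij
  rw [bk_apply hp hc] at h2
  have h4 := star had hp hc (le_of_bk_eq hc h2) h1
  rw [mul_inv_rev, Equiv.Perm.mul_apply, Equiv.Perm.mul_apply, comb_ii] at h3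
  rw [mul_inv_rev, Equiv.Perm.mul_apply] at h4
  exact absurd h4 (not_lt.2 h3.le)

end CE
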