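import Pool.Agent.H43.CE.Defs

/-!
# CE, job Z-Fac : factorization for length additive products

`AD u w`: `i < j`, `u j < u i` imply `w⁻¹ i < w⁻¹ j`.
* `ad_step` : `w` has a descent at `q`, `w'' = w * sr`.  Let `i < j`, `u j < u i`; `w''⁻¹ = sr * w⁻¹`; `w⁻¹ i < w⁻¹ j`, and `sr` preserves this order unless `w⁻¹ i = q0`, `w⁻¹ j = q1`, i.e.
  `i = w q0 > w q1 = j`, impossible as `i < j`.  Second part: `(u * w'') q0 = u (w q1)`, `(u * w'') q1 = u (w q0)`; if `u (w q0) < u (w q1)` then with `i = w q1 < j = w q0` we get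
  `w⁻¹ i = q1 < w⁻¹ j = q0`, contradiction; and they are different by injectivity.
* `fac` : strong induction on `len w`.
  `w = 1`: `g2` is upper (`permMat_one`), `g1 = b * permMat u * c`, `g1 * g2 = b * permMat (u * 1) * (c * g2)`.
  `w ≠ 1`: a descent `q` (`CMT.exists_dsc`), `w'' = w * sr`, `w = w'' * sr`.  `g2 = β * permMat w * β' = g2'' * S * β'` with `g2'' = β * permMat w'' ∈ Cell w''`, `S = permMat (sr q hq)`.
  Induction (`len w'' < len w`, `CMT.len_mul_dsc`) for `g1, g2''`: `g1 = b * permMat u * c`, `g1 * g2'' = b * permMat (u * w'') * b''`.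
  `b'' * S = T y * S * c1`, `T y = transvection q0 q1 y` (`CMT.upper_split`).  `permMat (u*w'') * T y = transvection i j y * permMat (u*w'')` with `i = (u*w'') q0 < j = (u*w'') q1`
  (`permMat_transv`, `ad_step`).  So `g1 * g2 = (b * transvection i j y) * permMat (u * w'' * sr) * (c1 * β')`, and with `bt = b * transvection i j y` (upper):
  `g1 = b * permMat u * c = bt * transvection i j (-y) * permMat u * c = bt * permMat u * (transvection (u⁻¹ i) (u⁻¹ j) (-y) * c)`, where `u⁻¹ i = w'' q0 < w'' q1 = u⁻¹ j`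
  (`w''` has an ascent at `q`), so `transvection (u⁻¹ i) (u⁻¹ j) (-y) * c` is upper.
-/

open MvPolynomial

noncomputable section

namespace CE

open CMT

variable {n : ℕ} {u w : Equiv.Perm (Fin n)}

theorem fac_sr_lt {q : ℕ} {hq : q + 1 < n} {a b : Fin n} (hab : a < b)
    (h : ¬ (a = q0 q hq ∧ b = q1 q hq)) : sr q hq a < sr q hq b := by
  by_cases ha0 : a = q0 q hq
  · have hb1 : b ≠ q1 q hq := fun h1 => h ⟨ha0, h1⟩
    have hb0 : b ≠ q0 q hq := fun h1 => by rw [ha0, h1] at hab; exact lt_irrefl _ hab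
    rw [sr_ne q hq hb0 hb1, ha0, sr_q0]
    rw [ha0] at hab
    rw [Fin.lt_def] at hab ⊢
    have h2 : b.val ≠ q + 1 := fun h3 => hb1 (Fin.ext h3)
    have h3 : q < b.val := hab
    show q + 1 < b.val
    omega
  · by_cases ha1 : a = q1 q hq
    · have hb1 : b ≠ q1 q hq := fun h1 => by rw [ha1, h1] at hab; exact lt_irrefl _ hab
      have hb0 : b ≠ q0 q hq := fun h1 => by
        rw [ha1, h1] at hab
        exact lt_asymm hab (q0_lt_q1 q hq)
      rw [sr_ne q hq hb0 hb1, ha1, sr_q1]
      rw [ha1] at hab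
      exact (q0_lt_q1 q hq).trans hab
    · rw [sr_ne q hq ha0 ha1]
      by_cases hb0 : b = q0 q hq
      · rw [hb0, sr_q0]
        rw [hb0] at hab
        exact hab.trans (q0_lt_q1 q hq)
      · by_cases hb1 : b = q1 q hq
        · rw [hb1, sr_q1]
          rw [hb1] at hab
          rw [Fin.lt_def] at hab ⊢
          have h2 : a.val ≠ q := fun h3 => ha0 (Fin.ext h3)
          have h3 : a.val < q + 1 := hab
          show a.val < q
          omega
        · rw [sr_ne q hq hb0 hb1]
          exact hab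

theorem fac_ii (u : Equiv.Perm (Fin n)) (j : Fin n) : u⁻¹ (u j) = j := u.symm_apply_apply j

theorem fac_ai (u : Equiv.Perm (Fin n)) (j : Fin n) : u (u⁻¹ j) = j := u.apply_symm_apply j

theorem ad_step (h : AD u w) {q : ℕ} {hq : q + 1 < n} (hd : dsc w q hq) :
    AD u (w * sr q hq) ∧ asc (u * (w * sr q hq)) q hq := by
  refine ⟨fun i j hij huij => ?_, ?_⟩
  · have e : ∀ k, (w * sr q hq)⁻¹ k = sr q hq (w⁻¹ k) := by
      intro k
      rw [mul_inv_rev, Equiv.Perm.mul_apply]
      congr 1
    rw [e, e]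
    refine fac_sr_lt (h i j hij huij) ?_
    rintro ⟨h1, h2⟩
    have h3 : i = w (q0 q hq) := by rw [← h1, fac_ai]
    have h4 : j = w (q1 q hq) := by rw [← h2, fac_ai]
    rw [h3, h4] at hij
    exact lt_asymm hij hd
  · rcases asc_or_dsc (u * (w * sr q hq)) q hq with h1 | h1
    · exact h1
    · exfalso
      unfold dsc at h1 hd
      rw [Equiv.Perm.mul_apply, Equiv.Perm.mul_apply, Equiv.Perm.mul_apply, Equiv.Perm.mul_apply,
        sr_q0, sr_q1] at h1
      have h2 := h _ _ hd h1
      rw [fac_ii, fac_ii] at h2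
      exact lt_asymm h2 (q0_lt_q1 q hq)

theorem fac_all (u : Equiv.Perm (Fin n)) {g1 : Matrix (Fin n) (Fin n) ℂ} (h1 : g1 ∈ Cell u)
    (m : ℕ) : ∀ (w : Equiv.Perm (Fin n)), len w < m → AD u w →
      ∀ g2 : Matrix (Fin n) (Fin n) ℂ, g2 ∈ Cell w →
      ∃ b c b' : Matrix (Fin n) (Fin n) ℂ, IsUpper b ∧ IsUpper c ∧
      IsUpper b' ∧ g1 = b * permMat ℂ u * c ∧ g1 * g2 = b * permMat ℂ (u * w) * b' := by
  induction m with
  | zero =>
    intro w hw
    omega
  | succ m ih =>
    intro w hm h g2 h2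
    obtain ⟨β, β', hβ, hβ', rfl⟩ := h2
    by_cases hw : w = 1
    · obtain ⟨b, c, hb, hc, rfl⟩ := h1
      refine ⟨b, c, c * (β * β'), hb, hc, hc.mul (hβ.mul hβ'), rfl, ?_⟩
      rw [hw, permMat_one, Matrix.mul_one, mul_one]
      simp only [Matrix.mul_assoc]
    · obtain ⟨q, hq, hd⟩ := exists_dsc hw
      obtain ⟨had, hasc⟩ := ad_step h hd
      have hlen := len_mul_dsc w q hq hd
      obtain ⟨b, c, b'', hb, hc, hb'', e1, e2⟩ := ih (w * sr q hq) (by omega) had
        (β * permMat ℂ (w * sr q hq)) (cell_mul_left hβ (permMat_mem_cell _))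
      obtain ⟨y, c1, hc1, e3⟩ := upper_split q hq hb''
      have e4 := permMat_transv (R := ℂ) (u * (w * sr q hq)) (q0 q hq) (q1 q hq) y
      obtain ⟨i, hi⟩ : ∃ i, i = (u * (w * sr q hq)) (q0 q hq) := ⟨_, rfl⟩
      obtain ⟨j, hj⟩ : ∃ j, j = (u * (w * sr q hq)) (q1 q hq) := ⟨_, rfl⟩
      have hij : i < j := by
        rw [hi, hj]
        exact hasc
      rw [← hi, ← hj] at e4
      have hi' : u⁻¹ i = w (q1 q hq) := by
        rw [hi, Equiv.Perm.mul_apply, Equiv.Perm.mul_apply, sr_q0, fac_ii]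
      have hj' : u⁻¹ j = w (q0 q hq) := by
        rw [hj, Equiv.Perm.mul_apply, Equiv.Perm.mul_apply, sr_q1, fac_ii]
      have hij' : u⁻¹ i < u⁻¹ j := by
        rw [hi', hj']
        exact hd
      have e5 := permMat_transv (R := ℂ) u (u⁻¹ i) (u⁻¹ j) (-y)
      rw [fac_ai, fac_ai] at e5
      have e6 : Matrix.transvection i j y * Matrix.transvection i j (-y) = (1 : Matrix _ _ ℂ) := by
        rw [Matrix.transvection_mul_transvection_same _ _ hij.ne, add_neg_cancel,
          Matrix.transvection_zero]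
      refine ⟨b * Matrix.transvection i j y,
        Matrix.transvection (u⁻¹ i) (u⁻¹ j) (-y) * c, c1 * β', hb.mul (isUpper_transv hij y),
        (isUpper_transv hij' _).mul hc, hc1.mul hβ', ?_, ?_⟩
      · calc g1 = b * (Matrix.transvection i j y * Matrix.transvection i j (-y)) *
              permMat ℂ u * c := by rw [e6, Matrix.mul_one, e1]
          _ = b * Matrix.transvection i j y * (Matrix.transvection i j (-y) *
              permMat ℂ u) * c := by simp only [Matrix.mul_assoc]
          _ = _ := by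
              rw [← e5]
              simp only [Matrix.mul_assoc]
      · have e7 : permMat ℂ w = permMat ℂ (w * sr q hq) * permMat ℂ (sr q hq) := by
          rw [← permMat_mul, mul_sr_sr]
        have e8 : permMat ℂ (u * w) = permMat ℂ (u * (w * sr q hq)) * permMat ℂ (sr q hq) := by
          rw [← permMat_mul, mul_assoc, mul_sr_sr]
        calc g1 * (β * permMat ℂ w * β') = (g1 * (β * permMat ℂ (w * sr q hq))) *
              permMat ℂ (sr q hq) * β' := by
              rw [e7]
              simp only [Matrix.mul_assoc]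
          _ = b * permMat ℂ (u * (w * sr q hq)) * (b'' * permMat ℂ (sr q hq)) * β' := by
              rw [e2]
              simp only [Matrix.mul_assoc]
          _ = b * (permMat ℂ (u * (w * sr q hq)) * Matrix.transvection (q0 q hq) (q1 q hq) y) *
              permMat ℂ (sr q hq) * c1 * β' := by
              rw [e3]
              simp only [Matrix.mul_assoc]
          _ = _ := by
              rw [e4, e8]
              simp only [Matrix.mul_assoc]

theorem fac (h : AD u w) {g1 g2 : Matrix (Fin n) (Fin n) ℂ} (h1 : g1 ∈ Cell u)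
    (h2 : g2 ∈ Cell w) : ∃ b c b' : Matrix (Fin n) (Fin n) ℂ, IsUpper b ∧ IsUpper c ∧
      IsUpper b' ∧ g1 = b * permMat ℂ u * c ∧ g1 * g2 = b * permMat ℂ (u * w) * b' :=
  fac_all u h1 (len w + 1) w (Nat.lt_succ_self _) h g2 h2

end CE
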