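import Pool.Agent.H43.CE.Z.Comb
import Pool.Agent.H43.CE.Z.Fac
import Pool.Agent.H43.CE.N.Bdg

/-!
# CE, job Z-PPZ : `ZM I u w = PP (bk I) (u * w) (I.image u) ∅`

* `bdg_col` : `i ∈ I`.  If `bk I j ≠ bk I i` both sides are 0 (`bk I (u i) = bk I i`, `bk_apply`).  If `bk I j = bk I i` then `i ≤ j` (`le_of_bk_eq`), and
  `(b * permMat u * c) j i = ∑_l b j (u l) * c l i`, over `l ≤ i`; for `l < i`: `u l < i ≤ j` (`Pres`), so `b j (u l) = 0`.  Remains `l = i`.
* `zm_eq_pp` : `⊆`: `(g1 * g2, (bdg g1).mulVec l)`; `fac`: `g1 = b * permMat u * c`, `g1 * g2 = b * permMat (u*w) * b'`.  Put `x' (u i) = c i i * l i`, i.e. `x' j = c (u⁻¹ j) (u⁻¹ j) * l (u⁻¹ j)`;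
  it is supported in `I.image u`; `(bdg g1).mulVec l = (bdg b).mulVec x'` by `bdg_col` (sum over `i`, `l i = 0` for `i ∉ I`; reindex `j = u i`).
  `⊇`: `(b * permMat (u*w) * b', (bdg b).mulVec x')`; `g1 = b * permMat u`, `g2 = permMat w * b'`, `l i = x' (u i)`; `bdg_col` with `c = 1`.
* `zc_eq_E1` : `permMat 1 = 1`.
-/

open MvPolynomial

noncomputable section

namespace CE

open CMT

variable {n : ℕ} {I : Finset (Fin n)} {u w : Equiv.Perm (Fin n)}

theorem bdg_col (hp : Pres I u) {b c : Matrix (Fin n) (Fin n) ℂ} (hb : IsUpper b)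
    (hc : IsUpper c) {i : Fin n} (hi : i ∈ I) (j : Fin n) :
    bdg (bk I) (b * permMat ℂ u * c) j i = c i i * bdg (bk I) b j (u i) := by
  rw [bdg_apply, bdg_apply, bk_apply hp hi]
  by_cases h : bk I j = bk I i
  · rw [if_pos h, if_pos h, Matrix.mul_apply, Finset.sum_eq_single i]
    · rw [mul_permMat_apply, mul_comm]
    · intro l _ hl
      rw [mul_permMat_apply]
      rcases lt_or_gt_of_ne hl with h1 | h1
      · rw [hb.1 j (u l) (lt_of_lt_of_le (hp i hi l h1) (le_of_bk_eq hi h)), zero_mul]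
      · rw [hc.1 l i h1, mul_zero]
    · intro h1
      exact absurd (Finset.mem_univ i) h1
  · rw [if_neg h, if_neg h, mul_zero]

theorem PPZ_ia (u : Equiv.Perm (Fin n)) (i : Fin n) : u⁻¹ (u i) = i := u.symm_apply_apply i

theorem PPZ_ai (u : Equiv.Perm (Fin n)) (i : Fin n) : u (u⁻¹ i) = i := u.apply_symm_apply i

theorem PPZ_sum (hp : Pres I u) {b c : Matrix (Fin n) (Fin n) ℂ} (hb : IsUpper b)
    (hc : IsUpper c) {l : Fin n → ℂ} (hl : ∀ j, j ∉ I → l j = 0) :
    (bdg (bk I) (b * permMat ℂ u * c)).mulVec l =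
      (bdg (bk I) b).mulVec (fun j => c (u⁻¹ j) (u⁻¹ j) * l (u⁻¹ j)) := by
  funext j
  rw [Matrix.mulVec, Matrix.mulVec, dotProduct, dotProduct,
    ← Equiv.sum_comp u (fun i => bdg (bk I) b j i * (c (u⁻¹ i) (u⁻¹ i) * l (u⁻¹ i)))]
  apply Finset.sum_congr rfl
  intro i _
  rw [PPZ_ia]
  by_cases hi : i ∈ I
  · rw [bdg_col hp hb hc hi]
    ring
  · rw [hl i hi]
    ring

theorem zm_eq_pp (had : AD u w) (hp : Pres I u) :
    ZM I u w = PP (bk I) (u * w) (I.image u) ∅ := by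
  apply Set.ext
  rintro ⟨g, x⟩
  constructor
  · rintro ⟨g1, h1, g2, h2, l, hl, hg, hx⟩
    obtain ⟨b, c, b', hb, hc, hb', e1, e2⟩ := fac had h1 h2
    refine ⟨b, b', fun j => c (u⁻¹ j) (u⁻¹ j) * l (u⁻¹ j), hb, hb', ?_,
      fun j hj => absurd hj (Finset.notMem_empty j), ?_, ?_⟩
    · intro j hj
      have h3 : l (u⁻¹ j) = 0 := by
        apply hl
        intro h4
        apply hj
        rw [Finset.mem_image]
        exact ⟨u⁻¹ j, h4, PPZ_ai u j⟩
      show c (u⁻¹ j) (u⁻¹ j) * l (u⁻¹ j) = 0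
      rw [h3, mul_zero]
    · exact hg.trans e2
    · have h3 : x = (bdg (bk I) g1).mulVec l := hx
      show x = _
      rw [h3, e1]
      exact PPZ_sum hp hb hc hl
  · rintro ⟨b, b', x', hb, hb', hxS, -, h1, h2⟩
    have hl : ∀ j, j ∉ I → (fun i => x' (u i)) j = 0 := by
      intro j hj
      apply hxS
      intro h3
      rw [Finset.mem_image] at h3
      obtain ⟨i, hi, hij⟩ := h3
      apply hj
      rw [← u.injective hij]
      exact hi
    refine ⟨b * permMat ℂ u, ⟨b, 1, hb, isUpper_one, by rw [Matrix.mul_one]⟩,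
      permMat ℂ w * b', ⟨1, b', isUpper_one, hb', by rw [Matrix.one_mul]⟩,
      fun i => x' (u i), hl, ?_, ?_⟩
    · have h3 : g = b * permMat ℂ (u * w) * b' := h1
      show g = _
      rw [h3, permMat_mul]
      simp only [Matrix.mul_assoc]
    · have h3 : x = (bdg (bk I) b).mulVec x' := h2
      show x = _
      have h4 := PPZ_sum (I := I) hp hb isUpper_one hl
      rw [Matrix.mul_one] at h4
      rw [h4, h3]
      congr 1
      funext j
      show x' j = (1 : Matrix (Fin n) (Fin n) ℂ) (u⁻¹ j) (u⁻¹ j) * x' (u (u⁻¹ j))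
      rw [Matrix.one_apply_eq, one_mul, PPZ_ai]

theorem zc_eq_E1 (had : AD u w) (hp : Pres I u) : Zc I u w = E1 I u w := by
  apply Set.ext
  intro z
  show (lowMat (fun e => z (Sum.inl e)), fun j => z (Sum.inr j)) ∈ ZM I u w ↔
    (permMat ℂ 1 * lowMat (fun e => z (Sum.inl e)), fun j => z (Sum.inr j)) ∈
      PP (bk I) (u * w) (I.image u) ∅
  rw [permMat_one, Matrix.one_mul, zm_eq_pp had hp]

end CE
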