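import Pool.Agent.H43.CE.Z.GCX
import Pool.Agent.H43.CE.N.Bdg

/-!
# CE, job Z-Sup : smaller sets `Zc` are in the closure

* `zc_step_u` : let `p ∈ Zc I u' w`, `z0 = p ∘ inl`: `lowMat z0 = g1 * g2`, `g1 = b1 * permMat u' * b2`, `g2 ∈ Cell w`, `p ∘ inr = (bdg (bk I) g1).mulVec l`.
  `G1 = b1.map C * permMat u' * transvection b a X * b2.map C` over `ℂ[X]`, `G = G1 * g2.map C`, `xs = (bdg (bk I) G1).mulVec (fun i => C (l i))`.
  `G1(c) = b1 * permMat u' * transvection b a c * b2` (see the private lemma `a7_eval` in CM/A/A7.lean), `G1(0) = g1`, `G(0) = lowMat z0`; `(xs j).eval c = ((bdg (bk I) (G1(c))).mulVec l) j` (`bdg_map`).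
  `hV`: `c ≠ 0`: `G1(c) ∈ Cell (u' * swap a b)` (`CMT.mem_cell_curve`), `lowMat z * T = G1(c) * g2`, so `lowMat z = G1(c) * (g2 * T⁻¹)`, `g2 * T⁻¹ ∈ Cell w` (`IsUpper.inv`, `cell_mul_right`): the
  point is in `Zc I (u' * swap a b) w`.  `generic_curveX` gives `φ`; `f ∈ VI (Zc I (u' * swap a b) w)`: `0 = constantCoeff (φ f) = aeval p f` (`p = Sum.elim z0 ..`).
* `zc_step_w` : the same with `g2(c) = b1 * permMat w' * transvection b a c * b2`, `G = g1.map C * G2`, `xs j = C (p (inr j))` constant.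
* `zc_mono` : `ble u1 u`: chain of covers: induction as in `CMT.VI_le_of_ble` (CM/A/A8.lean) using `exists_hasse`, `hasse_swap_lt`, `mul_swap_swap`; then the same for `w`.
-/

open MvPolynomial

noncomputable section

namespace CE

open CMT

variable {n : ℕ} {I : Finset (Fin n)}

private theorem sup_transv {R S : Type*} [CommRing R] [CommRing S] (f : R →+* S) (a b : Fin n)
    (c : R) : (Matrix.transvection a b c).map f = Matrix.transvection a b (f c) := by
  ext i j
  simp only [Matrix.map_apply, Matrix.transvection, Matrix.add_apply, Matrix.one_apply,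
    Matrix.single_apply]
  split_ifs <;> simp

private theorem sup_C (B : Matrix (Fin n) (Fin n) ℂ) (c : ℂ) :
    (B.map Polynomial.C).map (Polynomial.evalRingHom c) = B := by
  ext i j
  simp

/-- the curve in the big group -/
private def supG (v' : Equiv.Perm (Fin n)) (a b : Fin n) (b1 b2 : Matrix (Fin n) (Fin n) ℂ) :
    Matrix (Fin n) (Fin n) (Polynomial ℂ) :=
  b1.map Polynomial.C * permMat (Polynomial ℂ) v' *
      Matrix.transvection b a Polynomial.X * b2.map Polynomial.C

private theorem sup_eval (v' : Equiv.Perm (Fin n)) (a b : Fin n)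
    (b1 b2 : Matrix (Fin n) (Fin n) ℂ) (c : ℂ) :
    (supG v' a b b1 b2).map (Polynomial.evalRingHom c) =
      b1 * permMat ℂ v' * Matrix.transvection b a c * b2 := by
  unfold supG
  rw [Matrix.map_mul, Matrix.map_mul, Matrix.map_mul, permMat_map, sup_transv, sup_C, sup_C,
    Polynomial.coe_evalRingHom, Polynomial.eval_X]

private theorem sup_eval0 (v' : Equiv.Perm (Fin n)) (a b : Fin n)
    (b1 b2 : Matrix (Fin n) (Fin n) ℂ) :
    (supG v' a b b1 b2).map (Polynomial.evalRingHom 0) = b1 * permMat ℂ v' * b2 := by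
  rw [sup_eval, Matrix.transvection_zero, Matrix.mul_one]

private theorem sup_T {A z T : Matrix (Fin n) (Fin n) ℂ} (hT : IsUpper T) (h : A = z * T) :
    z = A * T⁻¹ := by
  rw [h, Matrix.mul_assoc, Matrix.mul_nonsing_inv _ (isUnit_iff_ne_zero.mpr hT.det_ne),
    Matrix.mul_one]

private theorem sup_elim (p : (Low n ⊕ Fin n) → ℂ) :
    Sum.elim (fun e => p (Sum.inl e)) (fun j => p (Sum.inr j)) = p := by
  funext x
  cases x <;> rfl

theorem zc_step_u {u' : Equiv.Perm (Fin n)} {a b : Fin n} (hab : a < b) (hv : u' a < u' b)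
    (w : Equiv.Perm (Fin n)) : VI (Zc I (u' * Equiv.swap a b) w) ≤ VI (Zc I u' w) := by
  intro f hf
  rw [mem_vanishingIdeal_iff]
  rintro p ⟨g1, ⟨b1, b2, hb1, hb2, hg1⟩, g2, hg2, l, hl, h1, h2⟩
  have h1' : lowMat (fun e => p (Sum.inl e)) = g1 * g2 := h1
  have h2' : (fun j => p (Sum.inr j)) = (bdg (bk I) g1).mulVec l := h2
  set xs : Fin n → Polynomial ℂ :=
    (bdg (bk I) (supG u' a b b1 b2)).mulVec (fun i => Polynomial.C (l i)) with hxs
  have hxe : ∀ c : ℂ, (fun j => (xs j).eval c) =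
      (bdg (bk I) ((supG u' a b b1 b2).map (Polynomial.evalRingHom c))).mulVec l := by
    intro c
    funext j
    rw [← bdg_map]
    have h3 := RingHom.map_mulVec (Polynomial.evalRingHom c) (bdg (bk I) (supG u' a b b1 b2))
      (fun i => Polynomial.C (l i)) j
    have h4 : (Polynomial.evalRingHom c : Polynomial ℂ → ℂ) ∘ (fun i => Polynomial.C (l i)) = l := by
      funext i
      simp
    rw [h4] at h3
    exact h3
  obtain ⟨φ, hφ0, hφV, -⟩ := generic_curveX (supG u' a b b1 b2 * g2.map Polynomial.C) xs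
    (fun e => p (Sum.inl e))
    (by rw [Matrix.map_mul, sup_eval0, sup_C, ← hg1, h1'])
    (Zc I (u' * Equiv.swap a b) w)
    (by
      intro c hc z T hT h
      rw [Matrix.map_mul, sup_C] at h
      refine ⟨(supG u' a b b1 b2).map (Polynomial.evalRingHom c), ?_, g2 * T⁻¹,
        cell_mul_right hT.inv hg2, l, hl, ?_, hxe c⟩
      · rw [sup_eval]
        exact mem_cell_curve hab hv hb1 hb2 hc
      · show lowMat z = _
        rw [← Matrix.mul_assoc]
        exact sup_T hT h)
  have h5 := hφ0 f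
  rw [hφV f hf, map_zero, hxe, sup_eval0, ← hg1, ← h2', sup_elim] at h5
  exact h5.symm

theorem zc_step_w {w' : Equiv.Perm (Fin n)} {a b : Fin n} (hab : a < b) (hv : w' a < w' b)
    (u : Equiv.Perm (Fin n)) : VI (Zc I u (w' * Equiv.swap a b)) ≤ VI (Zc I u w') := by
  intro f hf
  rw [mem_vanishingIdeal_iff]
  rintro p ⟨g1, hg1, g2, ⟨b1, b2, hb1, hb2, hg2⟩, l, hl, h1, h2⟩
  have h1' : lowMat (fun e => p (Sum.inl e)) = g1 * g2 := h1
  have h2' : (fun j => p (Sum.inr j)) = (bdg (bk I) g1).mulVec l := h2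
  have hxe : ∀ c : ℂ, (fun j => (Polynomial.C (p (Sum.inr j))).eval c) =
      fun j => p (Sum.inr j) := by
    intro c
    funext j
    exact Polynomial.eval_C
  obtain ⟨φ, hφ0, hφV, -⟩ := generic_curveX (g1.map Polynomial.C * supG w' a b b1 b2)
    (fun j => Polynomial.C (p (Sum.inr j))) (fun e => p (Sum.inl e))
    (by rw [Matrix.map_mul, sup_eval0, sup_C, ← hg2, h1'])
    (Zc I u (w' * Equiv.swap a b))
    (by
      intro c hc z T hT h
      rw [Matrix.map_mul, sup_C] at h
      refine ⟨g1, hg1, (supG w' a b b1 b2).map (Polynomial.evalRingHom c) * T⁻¹, ?_, l, hl, ?_, ?_⟩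
      · apply cell_mul_right hT.inv
        rw [sup_eval]
        exact mem_cell_curve hab hv hb1 hb2 hc
      · show lowMat z = _
        rw [← Matrix.mul_assoc]
        exact sup_T hT h
      · exact (hxe c).trans h2')
  have h5 := hφ0 f
  rw [hφV f hf, map_zero, hxe, sup_elim] at h5
  exact h5.symm

private theorem sup_u {u1 w : Equiv.Perm (Fin n)} : ∀ (m : ℕ) (u : Equiv.Perm (Fin n)),
    len u = m → ble u1 u → VI (Zc I u w) ≤ VI (Zc I u1 w) := by
  intro m
  induction m using Nat.strong_induction_on with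
  | _ m ih =>
    intro u hl h
    by_cases hne : u1 = u
    · rw [hne]
    · obtain ⟨a, b, h1, h2⟩ := exists_hasse h hne
      have h3 := (cov_of_hasse h1).2
      have h4 := zc_step_u (I := I) h1.1 (hasse_swap_lt h1) w
      rw [mul_swap_swap] at h4
      exact h4.trans (ih (len (u * Equiv.swap a b)) (by omega) _ rfl h2)

private theorem sup_w {w1 u : Equiv.Perm (Fin n)} : ∀ (m : ℕ) (w : Equiv.Perm (Fin n)),
    len w = m → ble w1 w → VI (Zc I u w) ≤ VI (Zc I u w1) := by
  intro m
  induction m using Nat.strong_induction_on with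
  | _ m ih =>
    intro w hl h
    by_cases hne : w1 = w
    · rw [hne]
    · obtain ⟨a, b, h1, h2⟩ := exists_hasse h hne
      have h3 := (cov_of_hasse h1).2
      have h4 := zc_step_w (I := I) h1.1 (hasse_swap_lt h1) u
      rw [mul_swap_swap] at h4
      exact h4.trans (ih (len (w * Equiv.swap a b)) (by omega) _ rfl h2)

theorem zc_mono {u u1 w w1 : Equiv.Perm (Fin n)} (hu : ble u1 u) (hw : ble w1 w) :
    VI (Zc I u w) ≤ VI (Zc I u1 w1) :=
  (sup_u _ u rfl hu).trans (sup_w _ w rfl hw)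

end CE
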