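import Pool.Agent.H43.CE.Defs

/-!
# CE, job Z-P1 : the projection from the `P^1`-bundle is closed

`R = CR T` normal domain, `K = FractionRing R`, `ev : R → ℂ` evaluation at `y` (well defined by `hy`), `𝔪 = ker ev`.  `T` is nonempty (otherwise `1 ∈ VI T`).
(0) Case `a ∈ VI T`: then `b` has no zero on `T` (`hab`), `Seq T b a = {(y', 0) : y' ∈ T}`.  `t = 0`, second alternative: `f ∈ VI (Seq T b a)`: the polynomial
   `f0 = f(·, 0)` (`aeval (fun o => o.elim 0 X) f : MvPolynomial κ ℂ`) vanishes on `T`, so `aeval (cons y 0) f = aeval y f0 = 0`.  Case `b ∈ VI T`: symmetric, first alternative.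
(1) Otherwise `τ = tau T a b = b / a ≠ 0` and `tau T b a = a / b = τ⁻¹` (unfold `CMT.tau`).  Let `E : MvPolynomial (Option κ) ℂ → ℂ[X]`, `E f = (optionEquivLeft ℂ κ f).map (aeval y)`, surjective,
   `(E f).eval t = aeval (cons y t) f` (`CMT.aeval_option`, in Ch/C5.lean).  The image `J1` of `VI (Seq T a b)` is an ideal of `ℂ[X]`.  If `J1 ≠ ⊤`: `J1 = span {g}`, `g` not a unit, so `g` has a
   root `t` (`g = 0`: `t = 0`; otherwise `IsAlgClosed.exists_root`, degree > 0), and the first alternative holds for `t`.  So assume `1 = E f1` with `f1 ∈ VI (Seq T a b)`, and in the same way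
   `1 = E f2` with `f2 ∈ VI (Seq T b a)`.
   `F1 = toPoly T f1 ∈ R[X]`: `F1.map ev = E f1 = 1`, so `1 - F1 ∈ 𝔪.map C` (all coefficients in `𝔪`: `Ideal.mem_map_C_iff`), and `evTau T a b F1 = 0` (`CMT.VI_Seq`), i.e. `aeval τ (1 - F1) = 1`.
   Similarly `1 - F2 ∈ 𝔪.map C`, `aeval τ⁻¹ (1 - F2) = 1`.  `CMT.C1_val` (C/Ker.lean) with the prime (so radical) ideal `𝔪` and `y = 1`: some `r ∈ 𝔪` has `algebraMap R K r = 1`,
   so `r = 1 ∈ 𝔪`, contradiction (`ev 1 = 1`).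
-/

open MvPolynomial

noncomputable section

namespace CE

open CMT

/-- restriction of `f` to the fibre over `y` -/
def P1_E {κ : Type} (y : κ → ℂ) : MvPolynomial (Option κ) ℂ →+* Polynomial ℂ :=
  (Polynomial.mapRingHom (aeval y : MvPolynomial κ ℂ →ₐ[ℂ] ℂ).toRingHom).comp
    ((optionEquivLeft ℂ κ).toAlgHom : MvPolynomial (Option κ) ℂ →ₐ[ℂ] _).toRingHom

theorem P1_E_apply {κ : Type} (y : κ → ℂ) (f : MvPolynomial (Option κ) ℂ) :
    P1_E y f = (optionEquivLeft ℂ κ f).map (aeval y : MvPolynomial κ ℂ →ₐ[ℂ] ℂ).toRingHom := rfl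

theorem P1_E_eval {κ : Type} (y : κ → ℂ) (t : ℂ) (f : MvPolynomial (Option κ) ℂ) :
    (P1_E y f).eval t = aeval (cons y t) f := by
  rw [aeval_option, P1_E_apply]
  rfl

theorem P1_E_surj {κ : Type} (y : κ → ℂ) : Function.Surjective (P1_E y) := by
  intro g
  have h : Function.Surjective (aeval y : MvPolynomial κ ℂ →ₐ[ℂ] ℂ).toRingHom := by
    intro c
    refine ⟨C c, ?_⟩
    show aeval y (C c) = c
    rw [aeval_C]
    rfl
  obtain ⟨F, hF⟩ := Polynomial.map_surjective _ h g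
  refine ⟨(optionEquivLeft ℂ κ).symm F, ?_⟩
  rw [P1_E_apply, AlgEquiv.apply_symm_apply, hF]

theorem P1_alt {κ : Type} (y : κ → ℂ) (J : Ideal (MvPolynomial (Option κ) ℂ)) :
    (∃ t : ℂ, ∀ f ∈ J, aeval (cons y t) f = 0) ∨ ∃ f ∈ J, P1_E y f = 1 := by
  by_cases h : J.map (P1_E y) = ⊤
  · right
    have h1 : (1 : Polynomial ℂ) ∈ J.map (P1_E y) := by rw [h]; exact Submodule.mem_top
    obtain ⟨f, hf, h2⟩ := (Ideal.mem_map_iff_of_surjective _ (P1_E_surj y)).1 h1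
    exact ⟨f, hf, h2⟩
  · left
    obtain ⟨g, hg⟩ : ∃ g : Polynomial ℂ, J.map (P1_E y) = Ideal.span {g} :=
      ⟨Submodule.IsPrincipal.generator (J.map (P1_E y)),
        (Ideal.span_singleton_generator (J.map (P1_E y))).symm⟩
    have hu : ¬ IsUnit g := by
      intro hu
      apply h
      rw [hg]
      exact Ideal.span_singleton_eq_top.2 hu
    have hdeg : g.degree ≠ 0 := fun h0 => hu (Polynomial.isUnit_iff_degree_eq_zero.2 h0)
    obtain ⟨t, ht⟩ := IsAlgClosed.exists_root g hdeg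
    refine ⟨t, fun f hf => ?_⟩
    have h1 : P1_E y f ∈ Ideal.span {g} := by
      rw [← hg]
      exact Ideal.mem_map_of_mem _ hf
    obtain ⟨q, hq⟩ := Ideal.mem_span_singleton.1 h1
    rw [← P1_E_eval, hq, Polynomial.eval_mul, Polynomial.IsRoot.def.1 ht, zero_mul]

theorem P1_zero {κ : Type} (T : Set (κ → ℂ)) (a b : MvPolynomial κ ℂ)
    (hb : b ∈ VI T) {y : κ → ℂ}
    (hy : ∀ f ∈ VI T, aeval y f = 0) :
    ∀ f ∈ VI (Seq T a b), aeval (cons y 0) f = 0 := by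
  intro f hf
  rw [mem_vanishingIdeal_iff] at hf hb
  set f0 : MvPolynomial κ ℂ := aeval (fun o : Option κ => o.elim 0 X) f with hf0
  have key : ∀ z : κ → ℂ, aeval z f0 = aeval (cons z 0) f := by
    intro z
    have h : (aeval z : MvPolynomial κ ℂ →ₐ[ℂ] ℂ).comp
        (aeval (fun o : Option κ => o.elim (0 : MvPolynomial κ ℂ) X)) = aeval (cons z 0) := by
      apply MvPolynomial.algHom_ext
      intro o
      cases o with
      | none => simp [cons]
      | some j => simp [cons]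
    rw [hf0, ← h]
    rfl
  rw [← key]
  apply hy
  rw [mem_vanishingIdeal_iff]
  intro z hz
  rw [key]
  apply hf
  refine ⟨hz, ?_⟩
  show aeval z a * 0 = aeval z b
  rw [hb z hz, mul_zero]

/-- evaluation at `y` on the coordinate ring -/
def P1_ev {κ : Type} (T : Set (κ → ℂ)) (y : κ → ℂ) (hy : ∀ f ∈ VI T, aeval y f = 0) :
    CR T →+* ℂ :=
  Ideal.Quotient.lift (VI T) (aeval y : MvPolynomial κ ℂ →ₐ[ℂ] ℂ).toRingHom hy

theorem P1_map {κ : Type} (T : Set (κ → ℂ)) (y : κ → ℂ) (hy : ∀ f ∈ VI T, aeval y f = 0)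
    (f : MvPolynomial (Option κ) ℂ) : (toPoly T f).map (P1_ev T y hy) = P1_E y f := by
  rw [toPoly_apply, Polynomial.map_map, P1_E_apply]
  congr 1

theorem P1_mem {κ : Type} (T : Set (κ → ℂ)) (y : κ → ℂ) (hy : ∀ f ∈ VI T, aeval y f = 0)
    (f : MvPolynomial (Option κ) ℂ) (hf : P1_E y f = 1) :
    1 - toPoly T f ∈ (RingHom.ker (P1_ev T y hy)).map
      (Polynomial.C : CR T →+* Polynomial (CR T)) := by
  rw [Ideal.mem_map_C_iff]
  intro i
  rw [RingHom.mem_ker, ← Polynomial.coeff_map, Polynomial.map_sub, Polynomial.map_one, P1_map, hf,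
    sub_self, Polynomial.coeff_zero]

theorem P1_main {κ : Type} (T : Set (κ → ℂ)) [IsDomain (CR T)] [IsIntegrallyClosed (CR T)]
    (a b : MvPolynomial κ ℂ) (hab : ∀ y ∈ T, ¬ (aeval y a = 0 ∧ aeval y b = 0)) {y : κ → ℂ}
    (hy : ∀ f ∈ VI T, aeval y f = 0) (ha : a ∉ VI T) (hb : b ∉ VI T)
    (f1 f2 : MvPolynomial (Option κ) ℂ) (h1 : f1 ∈ VI (Seq T a b)) (h2 : f2 ∈ VI (Seq T b a))
    (e1 : P1_E y f1 = 1) (e2 : P1_E y f2 = 1) : False := by
  have hab' : ∀ y ∈ T, ¬ (aeval y b = 0 ∧ aeval y a = 0) := fun y hy h => hab y hy ⟨h.2, h.1⟩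
  rw [VI_Seq T a b hab ha] at h1
  rw [VI_Seq T b a hab' hb] at h2
  have hinv : tau T b a = (tau T a b)⁻¹ := by
    unfold tau
    rw [inv_div]
  unfold evTau at h1 h2
  rw [hinv] at h2
  have hprime : (RingHom.ker (P1_ev T y hy)).IsPrime := RingHom.ker_isPrime _
  obtain ⟨r, hr, hr1⟩ := C1_val (K := FractionRing (CR T)) (RingHom.ker (P1_ev T y hy))
    hprime.isRadical (tau T a b) 1 (1 - toPoly T f1) (1 - toPoly T f2) (P1_mem T y hy f1 e1)
    (P1_mem T y hy f2 e2) (by rw [map_sub, map_one, h1, sub_zero])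
    (by rw [map_sub, map_one, h2, sub_zero])
  have hr2 : r = 1 := by
    apply IsFractionRing.injective (CR T) (FractionRing (CR T))
    rw [hr1, map_one]
  rw [hr2, RingHom.mem_ker, map_one] at hr
  exact one_ne_zero hr

theorem closure_P1 {κ : Type} [Finite κ] (T : Set (κ → ℂ)) (hT : NormalCR T)
    (a b : MvPolynomial κ ℂ) (hab : ∀ y ∈ T, ¬ (aeval y a = 0 ∧ aeval y b = 0)) {y : κ → ℂ}
    (hy : ∀ f ∈ VI T, aeval y f = 0) :
    ∃ t : ℂ, (∀ f ∈ VI (Seq T a b), aeval (cons y t) f = 0) ∨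
      (∀ f ∈ VI (Seq T b a), aeval (cons y t) f = 0) := by
  have : IsDomain (CR T) := hT.1
  have : IsIntegrallyClosed (CR T) := hT.2
  by_cases ha : a ∈ VI T
  · exact ⟨0, Or.inr (P1_zero T b a ha hy)⟩
  by_cases hb : b ∈ VI T
  · exact ⟨0, Or.inl (P1_zero T a b hb hy)⟩
  rcases P1_alt y (VI (Seq T a b)) with ⟨t, ht⟩ | ⟨f1, h1, e1⟩
  · exact ⟨t, Or.inl ht⟩
  rcases P1_alt y (VI (Seq T b a)) with ⟨t, ht⟩ | ⟨f2, h2, e2⟩
  · exact ⟨t, Or.inr ht⟩
  exact (P1_main T a b hab hy ha hb f1 f2 h1 h2 e1 e2).elim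

end CE
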