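import Pool.Agent.H43.CE.Z.PPZ

/-!
# CE, job Z-Sub1 : stability of `ZZ`

* `zz_mono` : `ble_trans`.
* `zz_mul_sr`, `zz_mul_xq` : `g = g1 * g2`, `g2 ∈ Cell w1`, `ble w1 w`.  `g2 * S`, `g2 * xq t` are in `Cell2 q hq w1 = Cell w1 ∪ Cell (w1 * sr)` (`CMT.cell2_mul_sr`, `CMT.cell2_mul_xq`; unfold `Cell2`),
  and `ble (w1 * sr) w` by `CMT.lift_a` (`w` has a descent at `q`).
-/

open MvPolynomial

noncomputable section

namespace CE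

open CMT

variable {n : ℕ} {I : Finset (Fin n)} {u w : Equiv.Perm (Fin n)}

theorem zz_mono {w' : Equiv.Perm (Fin n)} (h : ble w' w)
    {p : Matrix (Fin n) (Fin n) ℂ × (Fin n → ℂ)} (hp : p ∈ ZZ I u w') : p ∈ ZZ I u w := by
  obtain ⟨u1, w1, h1, h2, h3⟩ := hp
  exact ⟨u1, w1, h1, ble_trans h2 h, h3⟩

theorem Sub1_aux {q : ℕ} {hq : q + 1 < n} (hd : dsc w q hq) {c g : Matrix (Fin n) (Fin n) ℂ}
    {x : Fin n → ℂ} (hc : ∀ w1 : Equiv.Perm (Fin n), ∀ M ∈ Cell2 q hq w1, M * c ∈ Cell2 q hq w1)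
    (h : (g, x) ∈ ZZ I u w) : (g * c, x) ∈ ZZ I u w := by
  obtain ⟨u1, w1, h1, h2, g1, hg1, g2, hg2, l, hl, h3, h4⟩ := h
  have h5 : g * c = g1 * (g2 * c) := by
    rw [← Matrix.mul_assoc]
    exact congrArg (fun M => M * c) h3
  rcases hc w1 g2 (Or.inl hg2) with h6 | h6
  · exact ⟨u1, w1, h1, h2, g1, hg1, g2 * c, h6, l, hl, h5, h4⟩
  · exact ⟨u1, w1 * sr q hq, h1, lift_a q hq h2 hd, g1, hg1, g2 * c, h6, l, hl, h5, h4⟩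

theorem zz_mul_sr {q : ℕ} {hq : q + 1 < n} (hd : dsc w q hq) {g : Matrix (Fin n) (Fin n) ℂ}
    {x : Fin n → ℂ} (h : (g, x) ∈ ZZ I u w) : (g * permMat ℂ (sr q hq), x) ∈ ZZ I u w :=
  Sub1_aux hd (fun _ _ hM => cell2_mul_sr hM) h

theorem zz_mul_xq {q : ℕ} {hq : q + 1 < n} (hd : dsc w q hq) {g : Matrix (Fin n) (Fin n) ℂ}
    {x : Fin n → ℂ} (h : (g, x) ∈ ZZ I u w) (t : ℂ) : (g * xq q hq t, x) ∈ ZZ I u w :=
  Sub1_aux hd (fun _ _ hM => cell2_mul_xq hM t) h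

end CE
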