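import Pool.Agent.H43.CE.Z.Sub0
import Pool.Agent.H43.CE.Z.Sub1
import Pool.Agent.H43.CE.Z.P1
import Pool.Agent.H43.CE.N.Ind

/-!
# CE, job Z-Sub2 : the closure of a stratum is contained in `ZZ` (assembly)

Strong induction on `len w` for all `y, z`.  `w = 1`: `zz_base` (`u * 1 = u`).  Let `w ≠ 1`, `q` a descent of `w` (`CMT.exists_dsc`), `w'' = w * sr`, `v = u * w`, `S = I.image u`.
`ad_step`: `AD u w''`, `u * w''` has an ascent at `q`; `v = u * w'' * sr` has a descent at `q`, `v * sr = u * w''`.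
`hS` for `v`: `IsId (bk I) (u * w'') S` (`isId_image`); if `bk (v q1) = bk (v q0)` then `prc (bk I) (v * sr) (v q1) (v q0)` (`v q1 < v q0`; `(v * sr)⁻¹ (v q1) = q0 < q1 = (v * sr)⁻¹ (v q0)`), so `v q0 ∈ S → v q1 ∈ S`.
Let `c` be the coordinate change of `exists_gamX`, `z = gamX yt` (`c.g_surj`), `yb = fun i => yt (some i)`, `t = yt none`, `T = TT (bk I) y v q hq S ∅`, `a = aX`, `b = bX`, `E = EE (bk I) y v S ∅`.
`E` is nonempty (otherwise `1 ∈ VI E`); `NormalCR E` (`normal_EE`, `isId_image`), so `NormalCR (Sne T a b)` (`normal_iff_coord`, `gamX_mem_ne`), so `NormalCR T` (`normal_of_Sne`, `abX_ne`).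
`yb` is in the closure of `T`: for `f ∈ VI T`: `f' = c.E.symm (rename some f)` is in `VI E` (every point of `E` is `gamX y'` with `y' ∈ Sne T a b`; `aeval (c.g y') f' = aeval y' (c.E f') = aeval (y' ∘ some) f = 0`),
so `0 = aeval z f' = aeval yt (rename some f) = aeval yb f`.
`closure_P1` gives `t1`.
 First alternative: `z1 = gamX (cons yb t1)` is in the closure of `EE (bk I) y (v * sr) S ∅` (`gamX_mem_eq`, `c.aeval_E`, `c.g_surj`), so by induction `(permMat y * lowMat .., x) = (g * xq t1, x) ∈ ZZ I u w''`,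
 `g = permMat y * lowMat (ext0 ..)` (`CMT.lowMat_gam`).  `ble w'' w` (`CMT.ble_mul_sr_of_dsc`), `zz_mono`, `zz_mul_xq` with `t - t1`: `(g * xq t1 * xq (t - t1), x) = (g * xq t, x)`.
 Second alternative: `z1 = gamX' (cons yb t1)` is in the closure of `EE (bk I) (y * sr) (v * sr) S ∅` (`gamX'_mem_eq`), by induction `(g * S * xq t1, x) ∈ ZZ I u w''` (`CMT.chart_s`); `zz_mono`, then multiply by `xq (-t1)`,
 `S`, `xq t`.
-/

open MvPolynomial

noncomputable section

namespace CE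

open CMT

variable {n : ℕ} {I : Finset (Fin n)} {u w : Equiv.Perm (Fin n)}

theorem Sub2_xq (q : ℕ) (hq : q + 1 < n) (s t : ℂ) :
    xq q hq s * xq q hq (t - s) = xq q hq t := by
  rw [c3b_xq_mul, add_sub_cancel]

theorem Sub2_gamX {q : ℕ} {hq : q + 1 < n} (y : Equiv.Perm (Fin n))
    (yt : Option (Kap n q hq ⊕ Fin n) → ℂ) :
    permMat ℂ y * lowMat (fun e => gamX yt (Sum.inl e)) =
      permMat ℂ y * lowMat (ext0 fun i => yt (some (Sum.inl i))) * xq q hq (yt none) := by
  have h1 : (fun e => gamX yt (Sum.inl e)) = gam fun o => yt (o.map Sum.inl) := rfl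
  rw [h1, lowMat_gam, ← Matrix.mul_assoc]
  rfl

theorem Sub2_gamX' {q : ℕ} {hq : q + 1 < n} (y : Equiv.Perm (Fin n))
    (yt : Option (Kap n q hq ⊕ Fin n) → ℂ) :
    permMat ℂ (y * sr q hq) * lowMat (fun e => gamX' yt (Sum.inl e)) =
      permMat ℂ y * lowMat (ext0 fun i => yt (some (Sum.inl i))) * permMat ℂ (sr q hq) *
        xq q hq (yt none) := by
  have h1 : (fun e => gamX' yt (Sum.inl e)) = gam' fun o => yt (o.map Sum.inl) := rfl
  rw [h1, chart_s]
  rfl

theorem Sub2_closure {ι ι' : Type} (c : CoordChange ι ι') (E : Set (ι → ℂ)) (S : Set (ι' → ℂ))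
    (h : ∀ y, c.g y ∈ E → y ∈ S) {f : MvPolynomial ι' ℂ} (hf : f ∈ VI S) :
    c.E.symm f ∈ VI E := by
  rw [mem_vanishingIdeal_iff] at hf ⊢
  intro z hz
  obtain ⟨y, rfl⟩ := c.g_surj z
  rw [← c.aeval_E, AlgEquiv.apply_symm_apply]
  exact hf y (h y hz)

theorem Sub2_closure' {ι ι' : Type} (c : CoordChange ι ι') (E : Set (ι → ℂ)) (S : Set (ι' → ℂ))
    (h : ∀ y, y ∈ S → c.g y ∈ E) {f : MvPolynomial ι ℂ} (hf : f ∈ VI E) :
    c.E f ∈ VI S := by
  rw [mem_vanishingIdeal_iff] at hf ⊢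
  intro y hy
  rw [c.aeval_E]
  exact hf _ (h y hy)

theorem zz_all (had : AD u w) (hp : Pres I u) (y : Equiv.Perm (Fin n))
    {z : (Low n ⊕ Fin n) → ℂ}
    (hz : ∀ f ∈ VI (EE (bk I) y (u * w) (I.image u) ∅), aeval z f = 0) :
    (permMat ℂ y * lowMat (fun e => z (Sum.inl e)), fun j => z (Sum.inr j)) ∈ ZZ I u w := by
  induction hN : len w using Nat.strong_induction_on generalizing w y z with
  | _ N ih =>
  by_cases hw : w = 1
  · subst hw
    rw [mul_one] at hz
    exact zz_base hp y hz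
  obtain ⟨q, hq, hd⟩ := exists_dsc hw
  obtain ⟨had2, hasc⟩ := ad_step had hd
  have hlen : len (w * sr q hq) < N := by
    have h1 := len_mul_dsc w q hq hd
    omega
  have hv2 : u * (w * sr q hq) = u * w * sr q hq := (mul_assoc _ _ _).symm
  have hdv : dsc (u * w) q hq := by
    rw [hv2, asc_mul_iff] at hasc
    exact hasc
  have hid := isId_image (I := I) had hp
  have hid2 := isId_image (I := I) had2 hp
  rw [hv2] at hid2
  have hS : bk I ((u * w) (q1 q hq)) = bk I ((u * w) (q0 q hq)) →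
      (u * w) (q0 q hq) ∈ I.image u → (u * w) (q1 q hq) ∈ I.image u := by
    intro h1 h2
    refine hid2 _ _ h2 ⟨hdv, h1, ?_⟩
    have e0 : (u * w * sr q hq)⁻¹ ((u * w) (q1 q hq)) = q0 q hq := by
      rw [Equiv.Perm.inv_eq_iff_eq, Equiv.Perm.mul_apply (u * w), sr_q0]
    have e1 : (u * w * sr q hq)⁻¹ ((u * w) (q0 q hq)) = q1 q hq := by
      rw [Equiv.Perm.inv_eq_iff_eq, Equiv.Perm.mul_apply (u * w), sr_q1]
    rw [e0, e1]
    exact q0_lt_q1 q hq
  obtain ⟨c, hc⟩ := exists_gamX (n := n) q hq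
  obtain ⟨c', hc'⟩ := exists_gamX' (n := n) q hq
  obtain ⟨yt, rfl⟩ := c.g_surj z
  have hmem : ∀ yy, c.g yy ∈ EE (bk I) y (u * w) (I.image u) ∅ ↔
      yy ∈ Sne (TT (bk I) y (u * w) q hq (I.image u) ∅) (aX y (u * w) q hq)
        (bX y (u * w) q hq) := by
    intro yy
    rw [hc]
    exact gamX_mem_ne (bk_mono I) y hdv hS (Finset.notMem_empty _) yy
  have hne : (EE (bk I) y (u * w) (I.image u) ∅).Nonempty := by
    by_contra hne
    have h1 := (VI_eq_top_iff _).2 hne
    have h2 := hz 1 (by rw [h1]; exact Submodule.mem_top)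
    rw [map_one] at h2
    exact one_ne_zero h2
  have hab := abX_ne (bl := bk I) (S := I.image u) (N := ∅) y hdv
  have hNT : NormalCR (TT (bk I) y (u * w) q hq (I.image u) ∅) := by
    apply normal_of_Sne _ _ _ hab
    exact (normal_iff_coord c _ _ (fun yy => (hmem yy).symm)).1
      (normal_EE (bk_mono I) y (u * w) hid hne)
  have hy : ∀ f ∈ VI (TT (bk I) y (u * w) q hq (I.image u) ∅),
      aeval (fun i => yt (some i)) f = 0 := by
    intro f hf
    have hf' : rename some f ∈ VI (Sne (TT (bk I) y (u * w) q hq (I.image u) ∅)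
        (aX y (u * w) q hq) (bX y (u * w) q hq)) := by
      rw [mem_vanishingIdeal_iff] at hf ⊢
      intro yy hyy
      rw [aeval_rename]
      exact hf _ hyy.1
    have h1 := hz _ (Sub2_closure c _ _ (fun yy => (hmem yy).1) hf')
    rw [← c.aeval_E, AlgEquiv.apply_symm_apply, aeval_rename] at h1
    exact h1
  obtain ⟨t1, h1 | h1⟩ := closure_P1 _ hNT _ _ hab hy
  · have h2 : ∀ f ∈ VI (EE (bk I) y (u * (w * sr q hq)) (I.image u) ∅),
        aeval (c.g (cons (fun i => yt (some i)) t1)) f = 0 := by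
      intro f hf
      rw [← c.aeval_E]
      apply h1
      refine Sub2_closure' c _ _ (fun yy hyy => ?_) hf
      rw [hc, hv2]
      exact (gamX_mem_eq y hdv yy).2 hyy
    have h3 := zz_mono (ble_mul_sr_of_dsc hd) (ih _ hlen had2 y h2 rfl)
    have h4 := zz_mul_xq hd h3 (yt none - t1)
    rw [hc, Sub2_gamX, Matrix.mul_assoc _ (xq q hq _)] at h4
    have e1 : xq q hq ((cons (fun i => yt (some i)) t1 : Option (Kap n q hq ⊕ Fin n) → ℂ) none) *
        xq q hq (yt none - t1) = xq q hq (yt none) := Sub2_xq q hq t1 (yt none)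
    rw [e1] at h4
    rw [hc, Sub2_gamX]
    exact h4
  · have h2 : ∀ f ∈ VI (EE (bk I) (y * sr q hq) (u * (w * sr q hq)) (I.image u) ∅),
        aeval (c'.g (cons (fun i => yt (some i)) t1)) f = 0 := by
      intro f hf
      rw [← c'.aeval_E]
      apply h1
      refine Sub2_closure' c' _ _ (fun yy hyy => ?_) hf
      rw [hc', hv2]
      exact (gamX'_mem_eq y hdv yy).2 hyy
    have h3 := zz_mono (ble_mul_sr_of_dsc hd) (ih _ hlen had2 (y * sr q hq) h2 rfl)
    have h4 := zz_mul_xq hd h3 (-t1)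
    have e1 : xq q hq ((cons (fun i => yt (some i)) t1 : Option (Kap n q hq ⊕ Fin n) → ℂ) none) *
        xq q hq (-t1) = 1 := xq_mul_neg q hq t1
    rw [hc', Sub2_gamX', Matrix.mul_assoc _ (xq q hq _), e1, Matrix.mul_one] at h4
    have h5 := zz_mul_sr hd h4
    rw [Matrix.mul_assoc _ (permMat ℂ (sr q hq)), ← permMat_mul, sr_sr, permMat_one,
      Matrix.mul_one] at h5
    have h6 := zz_mul_xq hd h5 (yt none)
    rw [hc, Sub2_gamX]
    exact h6

end CE
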