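import Pool.Agent.H43.CE.Z.PPZ

/-!
# CE, job Z-Sub0 : the base case (`w = 1`) of the description of the closure

`E = EE (bk I) y u (I.image u) ∅`, `z` in the closure of `E`, `M = permMat y * lowMat (z ∘ inl)`, `x = z ∘ inr`.
For a point of `E` (`M = b * permMat u * b'`, `x = (bdg (bk I) b).mulVec x'`) and `c ∈ I`:
(i) `M j p = 0` for `p < c ≤ j`: `M j p = ∑_{l ≤ p} b j (u l) * b' l p`, `u l < c ≤ j`.
(ii) `M j c = b j (u c) * b' c c` for `c ≤ j` (the terms `l < c` vanish as `u l < c ≤ j`).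
(iii) if `bk I j = bk I c`: `x j = b j (u c) * x' (u c)`: the sum over `s ∈ I.image u` with `bk I s = bk I j`; `s = u c'`, `bk I (u c') = bk I c'` (`bk_apply`), so `c' = c` (`bk_inj`).
(iv) if `bk I j ≠ bk I c` for all `c ∈ I` then `x j = 0`.
So on `E`: `M j p = 0` (`p < c ≤ j`, `c ∈ I`); `x j * M j' c - x j' * M j c = 0` (`bk I j = bk I j' = bk I c`; `c ≤ j, j'` by `le_of_bk_eq`); `x j = 0` as in (iv).
These are polynomial equations in `z` (`M` has entries `(permMat y * lowMat (X ∘ inl)) j p`), so they hold at the closure point `z`.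
`z ∘ inl` is in the closure of `SS y u` (`rename Sum.inl f ∈ VI E` for `f ∈ VI (SS y u)`), `CMT.exists_cell` gives `w0` with `z ∘ inl ∈ SS y w0` and `CMT.ble_of_closure`: `ble w0 u`.
So `M ∈ Cell w0`, and `Pres I w0` (`pres_of_ble`): `M = b0 * permMat w0 * b0'`, by (ii) for `w0`: `M (w0 c) c = b0 (w0 c) (w0 c) * b0' c c ≠ 0` for `c ∈ I` (`c ≤ w0 c` by `pres_le`), and
`bk I (w0 c) = bk I c`.  Put `l c = x (w0 c) / M (w0 c) c` for `c ∈ I`, `0` otherwise.  Then `x j = l c * M j c` for `bk I j = bk I c`, so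
`x = (bdg (bk I) M).mulVec l`: `(..) j = ∑_{c ∈ I, bk I c = bk I j} M j c * l c` has at most one term.  So `(M, x) = (M * 1, ..) ∈ ZM I w0 1`, `1 ∈ Cell 1`.
-/

open MvPolynomial

noncomputable section

namespace CE

open CMT

variable {n : ℕ} {I : Finset (Fin n)} {u : Equiv.Perm (Fin n)}

theorem sub0_col {n : ℕ} {I : Finset (Fin n)} {u : Equiv.Perm (Fin n)} (hp : Pres I u)
    {b b' : Matrix (Fin n) (Fin n) ℂ} (hb : IsUpper b) (hb' : IsUpper b') {c j : Fin n}
    (hc : c ∈ I) (hj : c ≤ j) :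
    (b * permMat ℂ u * b') j c = b j (u c) * b' c c := by
  rw [Matrix.mul_apply, Finset.sum_eq_single c]
  · rw [mul_permMat_apply]
  · intro l _ hl
    rw [mul_permMat_apply]
    rcases lt_or_gt_of_ne hl with h | h
    · rw [hb.1 j (u l) (lt_of_lt_of_le (hp c hc l h) hj), zero_mul]
    · rw [hb'.1 l c h, mul_zero]
  · intro h
    exact absurd (Finset.mem_univ c) h

theorem sub0_vec {n : ℕ} {I : Finset (Fin n)} {u : Equiv.Perm (Fin n)} (hp : Pres I u)
    (b : Matrix (Fin n) (Fin n) ℂ) {x' : Fin n → ℂ} (hx : ∀ j, j ∉ I.image u → x' j = 0)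
    {c j : Fin n} (hc : c ∈ I) (hj : bk I j = bk I c) :
    (bdg (bk I) b).mulVec x' j = b j (u c) * x' (u c) := by
  show ∑ s, bdg (bk I) b j s * x' s = _
  rw [Finset.sum_eq_single (u c)]
  · rw [bdg_apply, if_pos (hj.trans (bk_apply hp hc).symm)]
  · intro s _ hs
    by_cases h : s ∈ I.image u
    · obtain ⟨c', hc', rfl⟩ := Finset.mem_image.1 h
      rw [bdg_apply, if_neg, zero_mul]
      intro h1
      rw [bk_apply hp hc', hj] at h1
      exact hs (by rw [bk_inj hc hc' h1])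
    · rw [hx s h, mul_zero]
  · intro h
    exact absurd (Finset.mem_univ _) h

theorem sub0_vec0 {n : ℕ} {I : Finset (Fin n)} {u : Equiv.Perm (Fin n)} (hp : Pres I u)
    (b : Matrix (Fin n) (Fin n) ℂ) {x' : Fin n → ℂ} (hx : ∀ j, j ∉ I.image u → x' j = 0)
    {j : Fin n} (hj : ∀ c ∈ I, bk I j ≠ bk I c) :
    (bdg (bk I) b).mulVec x' j = 0 := by
  show ∑ s, bdg (bk I) b j s * x' s = _
  refine Finset.sum_eq_zero (fun s _ => ?_)
  by_cases h : s ∈ I.image u
  · obtain ⟨c', hc', rfl⟩ := Finset.mem_image.1 h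
    rw [bdg_apply, if_neg, zero_mul]
    intro h1
    rw [bk_apply hp hc'] at h1
    exact hj c' hc' h1
  · rw [hx s h, mul_zero]

theorem sub0_aeval {n : ℕ} (y : Equiv.Perm (Fin n)) (z : (Low n ⊕ Fin n) → ℂ) (j p : Fin n) :
    aeval z ((permMat (MvPolynomial (Low n ⊕ Fin n) ℂ) y *
      lowMat (fun e : Low n => (X (Sum.inl e) : MvPolynomial (Low n ⊕ Fin n) ℂ))) j p) =
    (permMat ℂ y * lowMat (fun e => z (Sum.inl e))) j p := by
  have h : ((permMat (MvPolynomial (Low n ⊕ Fin n) ℂ) y *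
      lowMat (fun e : Low n => (X (Sum.inl e) : MvPolynomial (Low n ⊕ Fin n) ℂ))).map
      (aeval z : MvPolynomial (Low n ⊕ Fin n) ℂ →ₐ[ℂ] ℂ).toRingHom) =
      permMat ℂ y * lowMat (fun e => z (Sum.inl e)) := by
    rw [Matrix.map_mul, permMat_map, lowMat_map]
    have h1 : (fun e : Low n => (aeval z : MvPolynomial (Low n ⊕ Fin n) ℂ →ₐ[ℂ] ℂ).toRingHom
        (X (Sum.inl e))) = fun e => z (Sum.inl e) := by
      funext e
      exact aeval_X z _
    rw [h1]
  exact congrFun (congrFun h j) p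

theorem sub0_eq {n : ℕ} {I : Finset (Fin n)} {u : Equiv.Perm (Fin n)} (hp : Pres I u)
    (y : Equiv.Perm (Fin n)) {z : (Low n ⊕ Fin n) → ℂ}
    (hz : ∀ f ∈ VI (EE (bk I) y u (I.image u) ∅), aeval z f = 0) {c j j' : Fin n}
    (hc : c ∈ I) (hj : bk I j = bk I c) (hj' : bk I j' = bk I c) :
    z (Sum.inr j) * (permMat ℂ y * lowMat (fun e => z (Sum.inl e))) j' c =
    z (Sum.inr j') * (permMat ℂ y * lowMat (fun e => z (Sum.inl e))) j c := by
  have h := hz (X (Sum.inr j) * (permMat (MvPolynomial (Low n ⊕ Fin n) ℂ) y *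
      lowMat (fun e : Low n => (X (Sum.inl e) : MvPolynomial (Low n ⊕ Fin n) ℂ))) j' c -
      X (Sum.inr j') * (permMat (MvPolynomial (Low n ⊕ Fin n) ℂ) y *
      lowMat (fun e : Low n => (X (Sum.inl e) : MvPolynomial (Low n ⊕ Fin n) ℂ))) j c) ?_
  · rw [map_sub, map_mul, map_mul, aeval_X, aeval_X, sub0_aeval, sub0_aeval] at h
    exact sub_eq_zero.1 h
  · rw [mem_vanishingIdeal_iff]
    intro z' hz'
    obtain ⟨b, b', x', hb, hb', hx, -, h1, h2⟩ := hz'
    rw [map_sub, map_mul, map_mul, aeval_X, aeval_X, sub0_aeval, sub0_aeval]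
    have h3 : permMat ℂ y * lowMat (fun e => z' (Sum.inl e)) = b * permMat ℂ u * b' := h1
    have h4 : ∀ i, z' (Sum.inr i) = (bdg (bk I) b).mulVec x' i := fun i => congrFun h2 i
    rw [h3, h4, h4, sub0_vec hp b hx hc hj, sub0_vec hp b hx hc hj',
      sub0_col hp hb hb' hc (le_of_bk_eq hc hj), sub0_col hp hb hb' hc (le_of_bk_eq hc hj')]
    ring

theorem sub0_eq0 {n : ℕ} {I : Finset (Fin n)} {u : Equiv.Perm (Fin n)} (hp : Pres I u)
    (y : Equiv.Perm (Fin n)) {z : (Low n ⊕ Fin n) → ℂ}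
    (hz : ∀ f ∈ VI (EE (bk I) y u (I.image u) ∅), aeval z f = 0) {j : Fin n}
    (hj : ∀ c ∈ I, bk I j ≠ bk I c) : z (Sum.inr j) = 0 := by
  have h := hz (X (Sum.inr j)) ?_
  · rwa [aeval_X] at h
  · rw [mem_vanishingIdeal_iff]
    intro z' hz'
    obtain ⟨b, b', x', hb, hb', hx, -, h1, h2⟩ := hz'
    rw [aeval_X]
    exact (congrFun h2 j).trans (sub0_vec0 hp b hx hj)

theorem sub0_closure {n : ℕ} {I : Finset (Fin n)} {u : Equiv.Perm (Fin n)}
    (y : Equiv.Perm (Fin n)) {z : (Low n ⊕ Fin n) → ℂ}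
    (hz : ∀ f ∈ VI (EE (bk I) y u (I.image u) ∅), aeval z f = 0) :
    ∀ f ∈ VI (SS y u), aeval (fun e => z (Sum.inl e)) f = 0 := by
  intro f hf
  have h := hz (rename Sum.inl f) ?_
  · rw [aeval_rename] at h
    exact h
  · rw [mem_vanishingIdeal_iff] at hf ⊢
    intro z' hz'
    rw [aeval_rename]
    refine hf _ ?_
    obtain ⟨b, b', x', hb, hb', -, -, h, -⟩ := hz'
    exact ⟨b, b', hb, hb', h⟩

theorem zz_base (hp : Pres I u) (y : Equiv.Perm (Fin n)) {z : (Low n ⊕ Fin n) → ℂ}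
    (hz : ∀ f ∈ VI (EE (bk I) y u (I.image u) ∅), aeval z f = 0) :
    (permMat ℂ y * lowMat (fun e => z (Sum.inl e)), fun j => z (Sum.inr j)) ∈ ZZ I u 1 := by
  obtain ⟨w0, hw0⟩ := exists_cell y (fun e => z (Sum.inl e))
  have hble : ble w0 u := ble_of_closure (sub0_closure y hz) hw0
  have hp0 : Pres I w0 := pres_of_ble hble hp
  obtain ⟨M, hM⟩ : ∃ M, M = permMat ℂ y * lowMat (fun e => z (Sum.inl e)) := ⟨_, rfl⟩
  have hcell : M ∈ Cell w0 := by
    rw [hM]
    exact hw0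
  have hne : ∀ c ∈ I, M (w0 c) c ≠ 0 := by
    intro c hc
    obtain ⟨b, b', hb, hb', h⟩ := hcell
    rw [h, sub0_col hp0 hb hb' hc (pres_le hp0 hc le_rfl)]
    exact mul_ne_zero (hb.2 _) (hb'.2 _)
  have heq : ∀ c ∈ I, ∀ j, bk I j = bk I c →
      z (Sum.inr j) * M (w0 c) c = z (Sum.inr (w0 c)) * M j c := by
    intro c hc j hj
    rw [hM]
    exact sub0_eq hp y hz hc hj (bk_apply hp0 hc)
  classical
  refine ⟨w0, 1, hble, ble_refl 1, M, hcell, 1, ?_,
    fun c => if c ∈ I then z (Sum.inr (w0 c)) / M (w0 c) c else 0, ?_, ?_, ?_⟩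
  · have h := permMat_mem_cell (1 : Equiv.Perm (Fin n))
    rwa [permMat_one] at h
  · intro j hj
    exact if_neg hj
  · show permMat ℂ y * lowMat (fun e => z (Sum.inl e)) = M * 1
    rw [Matrix.mul_one, hM]
  · funext j
    show z (Sum.inr j) = ∑ i, bdg (bk I) M j i *
      (if i ∈ I then z (Sum.inr (w0 i)) / M (w0 i) i else 0)
    by_cases h : ∃ c ∈ I, bk I j = bk I c
    · obtain ⟨c, hc, hj⟩ := h
      rw [Finset.sum_eq_single c]
      · rw [bdg_apply, if_pos hj, if_pos hc]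
        have h1 := heq c hc j hj
        have h2 := hne c hc
        field_simp
        rw [h1]
        ring
      · intro i _ hi
        by_cases hiI : i ∈ I
        · rw [bdg_apply, if_neg, zero_mul]
          intro h1
          exact hi (bk_inj hiI hc (h1.symm.trans hj))
        · rw [if_neg hiI, mul_zero]
      · intro h1
        exact absurd (Finset.mem_univ c) h1
    · push Not at h
      rw [sub0_eq0 hp y hz h]
      symm
      refine Finset.sum_eq_zero (fun i _ => ?_)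
      by_cases hiI : i ∈ I
      · rw [bdg_apply, if_neg (h i hiI), zero_mul]
      · rw [if_neg hiI, mul_zero]

end CE
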